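import Mathlib
import Pool.Agent.Run7.h103.UN.Mod
import Pool.Agent.Results.MP_c2395a_nt.SimultaneousApproximation
import Pool.Agent.Run7.h795.UW.Fin3

set_option autoImplicit false

/-!
# Many odd zeta values, modulo arbitrary real numbers and predictable numbers

Let `F` be a finite set of pairwise multiplicatively independent bases, for instance `{2, 3, 10}`. At the
scale `(M, K)` a real number `x` is predictable in base `b` if some automaton with at most `K` states
which reads the digits of `x` in base `b` one by one and predicts the next one makes at most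
`A log (M / (K + 1))` errors among the first `M` digits. (Digits may be replaced by the differences
between the digits and the letters of fixed words of linear block complexity.) Put
`H = e ^ (A (K + 1))`.

We prove: for every large `s`, for `2 D + 1 ≤ (1 / 1000) log log s` and for all `r`, `d`, `A` and `ε > 0`
there is `R` such that for all `M ≥ R (K + 1)`, for all bases `b` in `F` with at most one exception,
which depends only on `M` and `K`, and for ALL real numbers `t_1, ..., t_D`: there are at least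
`(1 / (2000 (2 D + 1))) √(s log log s / log s)` odd `i` between `3` and `s` such that

`|m ζ(i) + n_1 t_1 + ... + n_D t_D + l - P (x_1, ..., x_r)| > e ^ (- ε M)`

for all integers `m ≠ 0`, `n_j`, `l` with `|m|, |n_j| ≤ H`, all integer polynomials `P` of degree at most
`d` in each variable with coefficients at most `H`, and all `x_j`, `|x_j| ≤ H`, which are predictable in
base `b` at the scale `(M, K)`. The same holds in windows: for the odd `i` between `s` and `N s`, with
`(1 / (20000 (2 D + 1))) √(N log log N / log N)`.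

So for every choice of few real numbers `t_j`, for instance `π`, `e`, `ζ(3)`, many of the numbers
`ζ(i)` are not in the space generated by the `t_j` and by the ring generated by `r` predictable
numbers, as far as small coefficients are concerned, with a measure; the constant `R` and the
exceptional base are uniform in the `t_j`. Rational numbers are predictable with boundedly many
errors, so for `D = 0` this contains the irrationality of so many odd zeta values, and in general that
so many of them are outside of a given rational vector space of dimension `D + 1` which contains `1`.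

Proof. By the starting result `SimultaneousApproximation` (and, for the windows, by helper795 and others,
`Run7/h795/UW`) for every large `q` there are many `i` with `‖q ζ(i)‖ ≥ q ^ (- 1 / (2 D + 1))`. If the
claim is false for two bases, for a sequence of scales and for real numbers `t_j`, `t'_j`, then in the
residue field of the ring of bounded germs the numbers `ζ(i)`, `i` in a large set, are in `U + T` and in
`U' + T'`, where `U`, `U'` are linearly disjoint over the field of germs of bounded rational numbers (by the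
subspace theorem with moving forms) and `T`, `T'` have dimension at most `D`; so they and `1` generate a
space of dimension at most `2 D + 1`, and Dirichlet's theorem gives simultaneous approximations which
contradict the lower bound.
-/

namespace Pool.Agent.Results.MP_c2395a_nt.ModuloPredictableNumbers

open Pool.Agent.Run7.h103.PF Pool.Agent.Run7.h103.UN

/-- `ζ(i)` -/
noncomputable def zeta (i : ℕ) : ℝ := ∑' n : ℕ, 1 / ((n : ℝ) + 1) ^ i

/-- from simultaneous approximations to the count -/
lemma count {W : Finset ℕ} {k : ℝ} {q0 D : ℕ} (hq0 : ∀ q : ℕ, q0 ≤ q → k ≤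
      (Set.ncard {i : ℕ | i ∈ W ∧ ∀ p : ℤ,
        (q : ℝ) ^ (-(1 / ((2 * D + 1 : ℕ) : ℝ))) ≤ |(q : ℝ) * zeta i - p|} : ℝ))
    (F : Finset ℕ) (hF2 : ∀ b ∈ F, 2 ≤ b)
    (hF : ∀ b ∈ F, ∀ c ∈ F, b ≠ c → Independent b c) (r : ℕ)
    (C : ℝ) (u : ℕ → ℕ → Fin r → ℕ → ℤ) (hu : ∀ b ∈ F, ∀ i j, SimpleWord b C (u b i j))
    (d : ℕ) (A ε : ℝ) (hε : 0 < ε) :
    ∃ R : ℕ, ∀ M K : ℕ, R * (K + 1) ≤ M → ∃ c : ℕ, ∀ b ∈ F, b ≠ c → ∀ t : Fin D → ℝ, k / 2 ≤
      (Set.ncard {i : ℕ | i ∈ W ∧ ¬ PredictableModulo b (u b i) d A ε M K t (zeta i)} : ℝ) := by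
  classical
  have hcount : ∀ P : ℕ → Prop, Set.ncard {i : ℕ | i ∈ W ∧ P i} =
      Set.ncard {j : W | P (j : ℕ)} := by
    intro P
    rw [← Set.ncard_image_of_injective _ (Subtype.val_injective (p := fun i => i ∈ W))]
    congr 1
    ext i
    constructor
    · rintro ⟨h1, h4⟩
      exact ⟨⟨i, h1⟩, h4, rfl⟩
    · rintro ⟨j, h4, rfl⟩
      exact ⟨j.2, h4⟩
  obtain ⟨R, hR⟩ := mod_all (W := W) (fun j => zeta (j : ℕ)) F hF2 hF
    (fun b j => u b (j : ℕ)) (fun b hb j s => hu b hb _ s) d D q0 k (by
      intro q hq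
      have h1 := hq0 q hq
      rw [hcount] at h1
      exact h1) A hε
  refine ⟨R, fun M K hMK => ?_⟩
  obtain ⟨c, hc⟩ := hR M K hMK
  refine ⟨c, fun b hb hbc t => ?_⟩
  rw [hcount (fun i => ¬ PredictableModulo b (u b i) d A ε M K t (zeta i))]
  exact hc b hb hbc t

/-- Let `F` be a finite set of pairwise multiplicatively independent bases. We write
`PredictableModulo b u d A ε M K t z` if for some integers `m ≠ 0`, `n_j`, `l`, where `|m|` and `|n_j|` are
at most `H = e ^ (A (K + 1))`, the number `m z + ∑ n_j t_j + l` is equal, up to `e ^ (- ε M)`, to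
`P (x_1, ..., x_r)` with an integer polynomial `P` of degree at most `d` in each variable with
coefficients at most `H` and with `|x_j| ≤ H`, where for each `j` some automaton with at most `K` states
which reads the differences between the digits of `x_j` in base `b` and the letters of `u_j` and
predicts the next one makes at most `A log (M / (K + 1))` errors among the first `M` places.

(1) For every large `s`, every `D` with `2 D + 1 ≤ (1 / 1000) log log s`, all words `u_{b,i,j}` of linear
block complexity over `{0, ..., b - 1}` and all `d`, `A` and `ε > 0` there is `R` such that for all `M`,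
`K` with `R (K + 1) ≤ M` and for all `b` in `F` with at most one exception: for all real numbers
`t_1, ..., t_D` at least `(1 / (2000 (2 D + 1))) √(s log log s / log s)` of the odd `i` between `3` and `s`
are such that `ζ(i)` is not predictable modulo the `t_j` in this sense.

(2) There is `N₀` such that for all `N ≥ N₀`, all odd `s`, every `D` with
`2 D + 1 ≤ (1 / 10000) log log N`, all words `u_{b,i,j}` and all `d`, `A` and `ε > 0` there is `R` such
that for all `M`, `K` with `R (K + 1) ≤ M` and for all `b` in `F` with at most one exception: for all real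
numbers `t_1, ..., t_D` at least `(1 / (20000 (2 D + 1))) √(N log log N / log N)` of the odd `i` with
`s < i ≤ N s` are such that `ζ(i)` is not predictable modulo the `t_j`. -/
theorem result :
    (∃ s₀ : ℕ, ∀ s ≥ s₀, ∀ D : ℕ, ((2 * D + 1 : ℕ) : ℝ) ≤ (1 / 1000) * Real.log (Real.log s) →
      ∀ F : Finset ℕ, (∀ b ∈ F, 2 ≤ b) → (∀ b ∈ F, ∀ c ∈ F, b ≠ c → Independent b c) →
      ∀ (r : ℕ) (C : ℝ) (u : ℕ → ℕ → Fin r → ℕ → ℤ), (∀ b ∈ F, ∀ i j, SimpleWord b C (u b i j)) →
      ∀ (d : ℕ) (A ε : ℝ), 0 < ε → ∃ R : ℕ, ∀ M K : ℕ, R * (K + 1) ≤ M →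
        ∃ c : ℕ, ∀ b ∈ F, b ≠ c → ∀ t : Fin D → ℝ,
          1 / (2000 * ((2 * D + 1 : ℕ) : ℝ)) * Real.sqrt (s * Real.log (Real.log s) / Real.log s) ≤
            (Set.ncard {i : ℕ | 3 ≤ i ∧ i ≤ s ∧ Odd i ∧
              ¬ PredictableModulo b (u b i) d A ε M K t (zeta i)} : ℝ)) ∧
    (∃ N₀ : ℕ, ∀ N ≥ N₀, ∀ s : ℕ, Odd s → ∀ D : ℕ,
      ((2 * D + 1 : ℕ) : ℝ) ≤ (1 / 10000) * Real.log (Real.log N) →
      ∀ F : Finset ℕ, (∀ b ∈ F, 2 ≤ b) → (∀ b ∈ F, ∀ c ∈ F, b ≠ c → Independent b c) →
      ∀ (r : ℕ) (C : ℝ) (u : ℕ → ℕ → Fin r → ℕ → ℤ), (∀ b ∈ F, ∀ i j, SimpleWord b C (u b i j)) →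
      ∀ (d : ℕ) (A ε : ℝ), 0 < ε → ∃ R : ℕ, ∀ M K : ℕ, R * (K + 1) ≤ M →
        ∃ c : ℕ, ∀ b ∈ F, b ≠ c → ∀ t : Fin D → ℝ,
          1 / (20000 * ((2 * D + 1 : ℕ) : ℝ)) *
            Real.sqrt (N * Real.log (Real.log N) / Real.log N) ≤
            (Set.ncard {i : ℕ | s < i ∧ i ≤ N * s ∧ Odd i ∧
              ¬ PredictableModulo b (u b i) d A ε M K t (zeta i)} : ℝ)) := by
  constructor
  · obtain ⟨s0, hs0⟩ := Pool.Agent.Results.MP_c2395a_nt.SimultaneousApproximation.result
    refine ⟨s0, fun s hs D hD F hF2 hF r C u hu d A ε hε => ?_⟩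
    obtain ⟨q0, hq0⟩ := hs0 s hs (2 * D + 1) (by omega) hD
    have hW : ∀ P : ℕ → Prop, {i : ℕ | 3 ≤ i ∧ i ≤ s ∧ Odd i ∧ P i} =
        {i : ℕ | i ∈ (Finset.Icc 3 s).filter Odd ∧ P i} := by
      intro P
      ext i
      simp only [Set.mem_setOf_eq, Finset.mem_filter, Finset.mem_Icc]
      tauto
    obtain ⟨R, hR⟩ := count (W := (Finset.Icc 3 s).filter Odd) (D := D)
      (k := (1 / 1000) / ((2 * D + 1 : ℕ) : ℝ) *
        Real.sqrt (s * Real.log (Real.log s) / Real.log s)) (q0 := q0) (by
        intro q hq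
        have h1 := hq0 q hq
        rw [hW (fun i => ∀ p : ℤ, (q : ℝ) ^ (-(1 / ((2 * D + 1 : ℕ) : ℝ))) ≤
          |(q : ℝ) * (∑' n : ℕ, 1 / ((n : ℝ) + 1) ^ i) - p|)] at h1
        exact h1) F hF2 hF r C u hu d A ε hε
    refine ⟨R, fun M K hMK => ?_⟩
    obtain ⟨c, hc⟩ := hR M K hMK
    refine ⟨c, fun b hb hbc t => ?_⟩
    rw [hW]
    refine le_trans (le_of_eq ?_) (hc b hb hbc t)
    have : ((2 * D + 1 : ℕ) : ℝ) ≠ 0 := by positivity
    field_simp
    ring
  · obtain ⟨N0, hN0⟩ := Run7.h795.UW.z_sim
    refine ⟨N0, fun N hN s hs D hD F hF2 hF r C u hu d A ε hε => ?_⟩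
    obtain ⟨q0, hq0⟩ := hN0 N hN s hs (2 * D + 1) (by omega) hD
    have hW : ∀ P : ℕ → Prop, {i : ℕ | s < i ∧ i ≤ N * s ∧ Odd i ∧ P i} =
        {i : ℕ | i ∈ (Finset.Ioc s (N * s)).filter Odd ∧ P i} := by
      intro P
      ext i
      simp only [Set.mem_setOf_eq, Finset.mem_filter, Finset.mem_Ioc]
      tauto
    obtain ⟨R, hR⟩ := count (W := (Finset.Ioc s (N * s)).filter Odd) (D := D)
      (k := (1 / 10000) / ((2 * D + 1 : ℕ) : ℝ) *
        Real.sqrt (N * Real.log (Real.log N) / Real.log N)) (q0 := q0) (by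
        intro q hq
        have h1 := hq0 q hq
        rw [hW (fun i => ∀ p : ℤ, (q : ℝ) ^ (-(1 / ((2 * D + 1 : ℕ) : ℝ))) ≤
          |(q : ℝ) * (∑' n : ℕ, 1 / ((n : ℝ) + 1) ^ i) - p|)] at h1
        exact h1) F hF2 hF r C u hu d A ε hε
    refine ⟨R, fun M K hMK => ?_⟩
    obtain ⟨c, hc⟩ := hR M K hMK
    refine ⟨c, fun b hb hbc t => ?_⟩
    rw [hW]
    refine le_trans (le_of_eq ?_) (hc b hb hbc t)
    have : ((2 * D + 1 : ℕ) : ℝ) ≠ 0 := by positivity
    field_simp
    ring

end Pool.Agent.Results.MP_c2395a_nt.ModuloPredictableNumbers
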