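import Mathlib
import Pool.Agent.Run7.h123.LC.LinB
import Pool.Agent.Run7.h123.LC.LinX

set_option autoImplicit false

/-!
# Odd zeta values and vector spaces over the fields of numbers with simple expansions

Let `S` be an infinite set of integers and `K_b` the field generated by the real numbers with simple
expansions (`O(m)` different blocks of length `m`, `m ∈ S`) in bases dependent on `b`; more generally
let `K_G` be the field generated by the series with ratios in a group `G` of rational numbers.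

For large `t`, all `D ≤ log t / 125`, all odd `s`, all groups `G, H` with trivial intersection and
all vector spaces `V` over `K_G` and `W` over `K_H` of dimensions `d, e` with `d e < D`, at least
`e^(-31 D) √(t / log t)` (and `√(t log log t / log t) / (10000 D)`, if `D ≤ log log t / 10000`) of the
numbers `ζ(i)`, `s < i ≤ t s` odd, are not in `V ∩ W`. Hence the dimensions over `K_G` and `K_H` of the
spaces spanned by these numbers have product at least `log t / 125 - 1`. For `r` independent groups the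
product of the `r` dimensions is at least `((log t / 125 - 1) / r)^(r-1)`, and one of `D` dimensions is
at least `D`.

For all bases outside one class the dimension over `K_b` of the space spanned by the odd zeta values up
to `ζ(t)` is at least `√(log t / 125 - 1)` for infinitely many `t`.

The proof. If all numbers in a set `Y` are in the space `V_i` over `K_i = K_(G_i)` for every `i`, then a
sequence of windows of the expansions of the coefficients gives fields `F_i` of hyperreal numbers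
(quotients of polynomials in the powers of the ratios) in which the coefficients are up to errors smaller
than all powers, and `Y` is in spaces over the `F_i` of the same dimensions. The fields are linearly
disjoint over a field `k` of numbers `P / Q` with integers of bounded size (files `LinA`, `LinD`). By
the inequalities of Petridis-Plünnecke type (`LinP`: two fields, `LinR`: `r` fields) and a matroid
argument of Rado type (`LinL`) the `k`-dimension of `Y` is bounded by the product of the dimensions (or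
`< D`). So all elements of `Y` have simultaneous approximations in a rational space of dimension `< D`
with errors smaller than all powers, hence by Dirichlet's theorem rational approximations of exponent
`1 / D`, against the theorem on simultaneous approximation of odd zeta values in windows (`S_M2` of
helper795 and others with another choice of the parameters, file `LinX`).
-/

namespace Pool.Agent.Results.MP_c2395a_nt.OddZetaOverSimpleFields

open Filter

/-- the number of different blocks of length `m` in the sequence `w` -/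
noncomputable def blocks {A : Type} (w : ℕ → A) (m : ℕ) : ℕ :=
  (Set.range fun i => fun j : Fin m => w (i + j)).ncard

/-- the digit with index `k + 1` after the point in the base `b` expansion of `x` -/
noncomputable def digit (b : ℕ) (x : ℝ) (k : ℕ) : ℤ := ⌊x * (b : ℝ) ^ (k + 1)⌋ % (b : ℤ)

/-- the sums of the series `∑ γ(w_0) ⋯ γ(w_{k-1}) c(w_k)`, where the `w_k` are in a finite set `A`,
`γ(a)` and `c(a)` are rational, `|γ(a)| < 1`, `|γ(a)|` is in `G` and the sequence `w` has
at most `C m` different blocks of length `m`, for all `m ∈ S` -/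
def Series (S : Set ℕ) (G : Subgroup ℚˣ) : Set ℝ :=
  {x | ∃ (A : Type) (_ : Finite A) (γ c : A → ℚ) (w : ℕ → A) (C : ℝ),
    (∀ a, ∃ u ∈ G, |γ a| = ((u : ℚˣ) : ℚ)) ∧ (∀ a, |γ a| < 1) ∧
    HasSum (fun n => (∏ k ∈ Finset.range n, (γ (w k) : ℝ)) * (c (w n) : ℝ)) x ∧
    ∀ m ∈ S, (blocks w m : ℝ) ≤ C * m}

/-- the field generated by `Series S G` -/
noncomputable def K (S : Set ℕ) (G : Subgroup ℚˣ) : Subfield ℝ := Subfield.closure (Series S G)

/-- the group of the positive rational numbers `u` such that `u ^ m = b ^ k` for some integers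
`m ≥ 1` and `k` -/
def group (b : ℕ) : Subgroup ℚˣ := Pool.Agent.Run7.h123.LC.rad b

lemma mem_group {b : ℕ} {u : ℚˣ} : u ∈ group b ↔ 0 < (u : ℚ) ∧
    ∃ (m : ℕ) (k : ℤ), 1 ≤ m ∧ (u : ℚ) ^ m = (b : ℚ) ^ k := Iff.rfl

/-- multiplicatively independent integers -/
def Independent {r : ℕ} (b : Fin r → ℕ) : Prop :=
  ∀ k : Fin r → ℤ, ∏ i, (b i : ℚ) ^ k i = 1 → k = 0

/-- independent groups -/
def IndependentGroups {r : ℕ} (G : Fin r → Subgroup ℚˣ) : Prop :=
  ∀ g : Fin r → ℚˣ, (∀ i, g i ∈ G i) → ∏ i, g i = 1 → ∀ i, g i = 1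

/-- for some `k < r` and multiplicatively independent `c_1, …, c_k ≥ 2`, `P b` is true for all `b ≥ 2`
such that `c_1, …, c_k, b` are multiplicatively independent -/
def AllBut (r : ℕ) (P : ℕ → Prop) : Prop :=
  ∃ (k : ℕ) (c : Fin k → ℕ), k < r ∧ (∀ i, 2 ≤ c i) ∧ Independent c ∧
    ∀ b : ℕ, 2 ≤ b → Independent (Fin.snoc c b : Fin (k + 1) → ℕ) → P b

/-- the zeta value `ζ(i) = ∑ 1 / n^i` -/
noncomputable def zeta (i : ℕ) : ℝ := ∑' n : ℕ, 1 / ((n : ℝ) + 1) ^ i

/-- the odd `i`, `s < i ≤ t s`, for which `ζ(i)` is not in `W` -/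
def outside (W : Set ℝ) (s t : ℕ) : Set ℕ := {i : ℕ | s < i ∧ i ≤ t * s ∧ Odd i ∧ zeta i ∉ W}

/-- `√(t log log t / log t)` -/
noncomputable def root (t : ℕ) : ℝ := Real.sqrt (t * Real.log (Real.log t) / Real.log t)

/-- `log t / 125` -/
noncomputable def lg (t : ℕ) : ℝ := Real.log t / 125

/-- `√(t log log t / log t) / (10000 D)` if `D ≤ log log t / 10000`, and `e^(-31 D) √(t / log t)` for the
other `D` -/
noncomputable def number (D t : ℕ) : ℝ :=
  if (D : ℝ) ≤ Real.log (Real.log t) / 10000 then root t / (10000 * D)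
  else Real.exp (-(31 * D)) * Real.sqrt (t / Real.log t)

/-- the `F`-vector space spanned by the `ζ(i)`, `s < i ≤ t s` odd -/
noncomputable def oddSpan (F : Subfield ℝ) (s t : ℕ) : Submodule F ℝ :=
  Submodule.span F {x : ℝ | ∃ i : ℕ, s < i ∧ i ≤ t * s ∧ Odd i ∧ x = zeta i}

/-- the dimension of the `F`-vector space spanned by the `ζ(i)`, `s < i ≤ t s` odd -/
noncomputable def dim (F : Subfield ℝ) (s t : ℕ) : ℕ := Module.finrank F (oddSpan F s t)

/-- the `F`-vector spaces in `ℝ` of dimension `d` -/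
def Spaces (F : Subfield ℝ) (d : ℕ) : Set (Set ℝ) :=
  {X | ∃ V : Submodule F ℝ, FiniteDimensional F V ∧ Module.finrank F V = d ∧ X = V}

/-- at least `number D t` of the `ζ(i)`, `s < i ≤ t s` odd, are not in `W` -/
def Many (D s t : ℕ) (W : Set ℝ) : Prop := number D t ≤ ((outside W s t).ncard : ℝ)

theorem oddSpan_fd (F : Subfield ℝ) (s t : ℕ) : FiniteDimensional F (oddSpan F s t) := by
  apply FiniteDimensional.span_of_finite
  refine ((Set.finite_Iic (t * s)).image zeta).subset ?_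
  rintro x ⟨i, -, hi, -, rfl⟩
  exact ⟨i, hi, rfl⟩

theorem mem_oddSpan (F : Subfield ℝ) {s t i : ℕ} (h1 : s < i) (h2 : i ≤ t * s) (h3 : Odd i) :
    zeta i ∈ oddSpan F s t := Submodule.subset_span ⟨i, h1, h2, h3, rfl⟩

theorem tend : Tendsto (fun t : ℕ => Real.log (Real.log t) / 10000) atTop atTop :=
  (Real.tendsto_log_atTop.comp (Real.tendsto_log_atTop.comp
    tendsto_natCast_atTop_atTop)).atTop_div_const (by norm_num)

theorem tend_lg : Tendsto lg atTop atTop :=
  (Real.tendsto_log_atTop.comp tendsto_natCast_atTop_atTop).atTop_div_const (by norm_num)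

theorem number_pos {D t : ℕ} (hD : 1 ≤ D) (h : (D : ℝ) ≤ lg t) : 0 < number D t := by
  have hDr : (1 : ℝ) ≤ D := by exact_mod_cast hD
  have h2 : 0 < Real.log t := by
    unfold lg at h
    linarith
  have h3 : (0 : ℝ) < t := by
    rw [Nat.cast_pos, Nat.pos_iff_ne_zero]
    rintro rfl
    rw [Nat.cast_zero, Real.log_zero] at h2
    exact lt_irrefl _ h2
  unfold number
  split_ifs with h1
  · have h4 : 0 < Real.log (Real.log t) := by linarith
    have h5 : 0 < root t := Real.sqrt_pos.2 (by positivity)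
    positivity
  · positivity

theorem outside_finite (W : Set ℝ) (s t : ℕ) : (outside W s t).Finite :=
  (Set.finite_Iic (t * s)).subset fun _ hi => hi.2.1

theorem many_pos {D s t : ℕ} (hD : 1 ≤ D) (hl : (D : ℝ) ≤ lg t) {W : Set ℝ} (h : Many D s t W) :
    outside W s t ≠ ∅ := by
  intro h5
  have hpos := number_pos hD hl
  unfold Many at h
  rw [h5, Set.ncard_empty, Nat.cast_zero] at h
  linarith

open Pool.Agent.Run7.h123.LC in
theorem allBut {P : ℕ → Prop} {r : ℕ} (hr : 1 ≤ r)
    (h : ∀ c : Fin r → ℕ, (∀ i, 2 ≤ c i) → Independent c → ∃ i, P (c i)) : AllBut r P := by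
  obtain ⟨n, rfl⟩ : ∃ n, r = n + 1 := ⟨r - 1, by omega⟩
  obtain ⟨k, c, hk, hc, hi, hb⟩ := outside_rank (fun b => ¬ P b) n (fun c hc hi hall => by
    obtain ⟨i, hi⟩ := h c hc hi
    exact hall i hi)
  exact ⟨k, c, by omega, hc, hi, fun b hb2 hbi => not_not.1 (hb b hb2 hbi)⟩

open Pool.Agent.Run7.h123.LC in
/-- (1) -/
theorem main : ∃ t0 : ℕ, ∀ t ≥ t0, ∀ s : ℕ, Odd s → ∀ D : ℕ, 1 ≤ D → (D : ℝ) ≤ lg t →
    ∀ S : Set ℕ, S.Infinite →
    (∀ G H : Subgroup ℚˣ, G ⊓ H = ⊥ → ∀ (V : Submodule (K S G) ℝ) (W : Submodule (K S H) ℝ),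
      FiniteDimensional (K S G) V → FiniteDimensional (K S H) W →
      Module.finrank (K S G) V * Module.finrank (K S H) W < D →
      Many D s t ((V : Set ℝ) ∩ W)) ∧
    (∀ r : ℕ, 2 ≤ r → ∀ G : Fin r → Subgroup ℚˣ, IndependentGroups G →
      ∀ V : ∀ i, Submodule (K S (G i)) ℝ, (∀ i, FiniteDimensional (K S (G i)) (V i)) →
      r ^ (r - 1) * ∏ i, Module.finrank (K S (G i)) (V i) < D ^ (r - 1) →
      Many D s t (⋂ i, (V i : Set ℝ))) ∧
    (∀ r : ℕ, D ≤ r → ∀ G : Fin r → Subgroup ℚˣ, IndependentGroups G →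
      ∀ V : ∀ i, Submodule (K S (G i)) ℝ, (∀ i, FiniteDimensional (K S (G i)) (V i)) →
      (∀ i, Module.finrank (K S (G i)) (V i) < D) →
      Many D s t (⋂ i, (V i : Set ℝ))) := by
  obtain ⟨t1, ht1⟩ := window_of_sim
  obtain ⟨t2, ht2⟩ := window_of_sim_large
  obtain ⟨t0, rfl⟩ : ∃ t0 : ℕ, t0 = max t1 t2 := ⟨_, rfl⟩
  have key : ∀ t ≥ max t1 t2, ∀ s : ℕ, Odd s → ∀ D : ℕ, 1 ≤ D → (D : ℝ) ≤ lg t → ∀ W : Set ℝ,
      Sim D W → Many D s t W := by
    intro t ht s hs D hD hDl W hW
    unfold Many number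
    split_ifs with hD2
    · have h1 := ht1 t ((le_max_left _ _).trans ht) s hs D hD (by linarith) W hW
      refine le_trans (le_of_eq ?_) h1
      unfold root
      ring
    · exact ht2 t ((le_max_right _ _).trans ht) s hs D hD hDl W hW
  have hset : ∀ (S : Set ℕ) (r : ℕ) (G : Fin r → Subgroup ℚˣ)
      (V : ∀ i, Submodule (K S (G i)) ℝ), (⋂ i, (V i : Set ℝ)) = {x | ∀ i, x ∈ V i} := by
    intro S r G V
    ext x
    simp only [Set.mem_iInter, SetLike.mem_coe, Set.mem_ofPred_eq]
  refine ⟨max t1 t2, fun t ht s hs D hD hDl S hS => ⟨?_, ?_, ?_⟩⟩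
  · intro G H hGH V W hV hW hlt
    exact key t ht s hs D hD hDl _
      (two_spaces hS hGH (F₁ := K S G) (F₂ := K S H) le_rfl le_rfl hV hW hlt)
  · intro r hr G hG V hV hlt
    rw [hset]
    exact key t ht s hs D hD hDl _
      (many_spaces hS hr hG (F := fun i => K S (G i)) (fun i => le_rfl) hV hlt)
  · intro r hr G hG V hV hlt
    rw [hset]
    exact key t ht s hs D hD hDl _
      (rank_spaces hS (by omega) hG (F := fun i => K S (G i)) (fun i => le_rfl) hV hlt hr)

open Pool.Agent.Run7.h123.LC in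
/-- (2), (3) -/
theorem dims : ∃ t0 : ℕ, ∀ t ≥ t0, ∀ s : ℕ, Odd s → ∀ S : Set ℕ, S.Infinite →
    (∀ G H : Subgroup ℚˣ, G ⊓ H = ⊥ → lg t - 1 ≤ (dim (K S G) s t : ℝ) * dim (K S H) s t) ∧
    (∀ r : ℕ, 2 ≤ r → ∀ G : Fin r → Subgroup ℚˣ, IndependentGroups G →
      ((lg t - 1) / r) ^ (r - 1) ≤ ∏ i, (dim (K S (G i)) s t : ℝ)) ∧
    (∀ D : ℕ, 1 ≤ D → (D : ℝ) ≤ lg t → AllBut D fun b => D ≤ dim (K S (group b)) s t) := by
  obtain ⟨t0, h⟩ := main
  obtain ⟨t1, h1⟩ := Filter.eventually_atTop.1 (tend_lg.eventually_ge_atTop 1)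
  refine ⟨max t0 t1, fun t ht s hs S hS => ?_⟩
  have ht0 : t0 ≤ t := (le_max_left _ _).trans ht
  have hl : 1 ≤ lg t := h1 t ((le_max_right _ _).trans ht)
  obtain ⟨D, hD⟩ : ∃ D : ℕ, D = ⌊lg t⌋₊ := ⟨_, rfl⟩
  have hD1 : 1 ≤ D := by
    rw [hD]
    exact Nat.le_floor (by simpa using hl)
  have hD2 : (D : ℝ) ≤ lg t := by
    rw [hD]
    exact Nat.floor_le (by linarith)
  have hD3 : lg t - 1 ≤ D := by
    have := Nat.lt_floor_add_one (lg t)
    rw [← hD] at this
    linarith
  obtain ⟨h2, h3, -⟩ := h t ht0 s hs D hD1 hD2 S hS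
  have hempty : ∀ (r : ℕ) (G : Fin r → Subgroup ℚˣ),
      outside (⋂ i, (oddSpan (K S (G i)) s t : Set ℝ)) s t = ∅ := by
    intro r G
    rw [Set.eq_empty_iff_forall_notMem]
    rintro i ⟨g1, g2, g3, g4⟩
    exact g4 (Set.mem_iInter.2 fun j => mem_oddSpan _ g1 g2 g3)
  refine ⟨?_, ?_, ?_⟩
  · intro G H hGH
    by_contra hcon
    push Not at hcon
    have h4 := h2 G H hGH (oddSpan (K S G) s t) (oddSpan (K S H) s t) (oddSpan_fd _ _ _)
      (oddSpan_fd _ _ _) (by
        have : (dim (K S G) s t : ℝ) * dim (K S H) s t < D := hcon.trans_le hD3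
        exact_mod_cast this)
    refine many_pos hD1 hD2 h4 ?_
    rw [Set.eq_empty_iff_forall_notMem]
    rintro i ⟨g1, g2, g3, g4⟩
    exact g4 ⟨mem_oddSpan _ g1 g2 g3, mem_oddSpan _ g1 g2 g3⟩
  · intro r hr G hG
    by_contra hcon
    push Not at hcon
    have hr0 : (0 : ℝ) < r := by
      have : 0 < r := by omega
      exact_mod_cast this
    have h4 := h3 r hr G hG (fun i => oddSpan (K S (G i)) s t) (fun i => oddSpan_fd _ _ _) (by
      have g1 : ∏ i, (dim (K S (G i)) s t : ℝ) < ((D : ℝ) / r) ^ (r - 1) := by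
        refine hcon.trans_le (pow_le_pow_left₀ (div_nonneg (by linarith) hr0.le) ?_ _)
        gcongr
      rw [div_pow, lt_div_iff₀ (by positivity)] at g1
      have g2 : (r : ℝ) ^ (r - 1) * ∏ i, (dim (K S (G i)) s t : ℝ) < (D : ℝ) ^ (r - 1) := by
        linarith
      exact_mod_cast g2)
    exact many_pos hD1 hD2 h4 (hempty r G)
  · intro E hE1 hE2
    refine allBut hE1 fun c hc hi => ?_
    by_contra hcon
    push Not at hcon
    have h4 := (h t ht0 s hs E hE1 hE2 S hS).2.2 E le_rfl (fun i => group (c i))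
      (gindep_rad hc hi) (fun i => oddSpan (K S (group (c i))) s t) (fun i => oddSpan_fd _ _ _)
      (fun i => hcon i)
    exact many_pos hE1 hE2 h4 (hempty E fun i => group (c i))

theorem prod_lt {r : ℕ} (hr : 2 ≤ r) {X : ℝ} (d : Fin r → ℕ) (h : ∀ i, (d i : ℝ) ^ r < X) :
    ∏ i, (d i : ℝ) < X := by
  obtain ⟨i0⟩ : Nonempty (Fin r) := ⟨⟨0, by omega⟩⟩
  have hXp : 0 < X := by
    refine lt_of_le_of_lt ?_ (h i0)
    positivity
  have h5 : (∏ i, (d i : ℝ)) ^ r < X ^ r := by
    rw [← Finset.prod_pow]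
    have h6 : ∏ i : Fin r, (d i : ℝ) ^ r < ∏ _i : Fin r, X := by
      by_cases hz : ∃ i, d i = 0
      · obtain ⟨i, hi0⟩ := hz
        rw [Finset.prod_eq_zero (Finset.mem_univ i) (by
          rw [hi0, Nat.cast_zero, zero_pow (by omega)])]
        exact Finset.prod_pos fun _ _ => hXp
      · push Not at hz
        refine Finset.prod_lt_prod (fun i _ => ?_) (fun i _ => (h i).le)
          ⟨i0, Finset.mem_univ _, h i0⟩
        have : 0 < d i := Nat.pos_of_ne_zero (hz i)
        positivity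
    rw [Finset.prod_const, Finset.card_univ, Fintype.card_fin] at h6
    exact h6
  exact lt_of_pow_lt_pow_left₀ r hXp.le h5

open Pool.Agent.Run7.h123.LC in
/-- (3) -/
theorem dims_bases : ∃ t0 : ℕ, ∀ t ≥ t0, ∀ s : ℕ, Odd s → ∀ S : Set ℕ, S.Infinite →
    AllBut 2 (fun b => lg t - 1 ≤ (dim (K S (group b)) s t : ℝ) ^ 2) ∧
    ∀ r : ℕ, 2 ≤ r → AllBut r fun b =>
      ((lg t - 1) / r) ^ (r - 1) ≤ (dim (K S (group b)) s t : ℝ) ^ r := by
  obtain ⟨t0, h⟩ := dims
  obtain ⟨t1, h1⟩ := Filter.eventually_atTop.1 (tend_lg.eventually_ge_atTop 1)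
  refine ⟨max t0 t1, fun t ht s hs S hS => ?_⟩
  have ht0 : t0 ≤ t := (le_max_left _ _).trans ht
  have hl : 1 ≤ lg t := h1 t ((le_max_right _ _).trans ht)
  obtain ⟨h2, h3, -⟩ := h t ht0 s hs S hS
  constructor
  · refine allBut (by norm_num) fun c hc hi => ?_
    by_contra hcon
    push Not at hcon
    have hi' : MInd ![c 0, c 1] := by
      have : ![c 0, c 1] = c := by
        funext i
        fin_cases i <;> rfl
      rw [this]
      exact hi
    have h4 := h2 (group (c 0)) (group (c 1)) (rad_inf (hc 0) (hc 1) hi')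
    obtain ⟨x, hx⟩ : ∃ x : ℝ, x = dim (K S (group (c 0))) s t := ⟨_, rfl⟩
    obtain ⟨y, hy⟩ : ∃ y : ℝ, y = dim (K S (group (c 1))) s t := ⟨_, rfl⟩
    have hx2 := hcon 0
    have hy2 := hcon 1
    rw [← hx] at hx2 h4
    rw [← hy] at hy2 h4
    have hx0 : 0 ≤ x := by rw [hx]; positivity
    have hy0 : 0 ≤ y := by rw [hy]; positivity
    have h5 : (x * y) ^ 2 < (lg t - 1) ^ 2 := by
      rw [mul_pow, sq (lg t - 1)]
      exact mul_lt_mul'' hx2 hy2 (by positivity) (by positivity)
    have h6 := lt_of_pow_lt_pow_left₀ 2 (by linarith) h5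
    linarith
  · intro r hr
    obtain ⟨X, hX⟩ : ∃ X : ℝ, X = ((lg t - 1) / r) ^ (r - 1) := ⟨_, rfl⟩
    have hX0 : 0 ≤ X := by
      rw [hX]
      have : 0 ≤ lg t - 1 := by linarith
      positivity
    rw [← hX]
    refine allBut (by omega) fun c hc hi => ?_
    by_contra hall
    push Not at hall
    have h4 := h3 r hr (fun i => group (c i)) (gindep_rad hc hi)
    rw [← hX] at h4
    exact absurd h4 (not_le.2 (prod_lt hr (fun i => dim (K S (group (c i))) s t) hall))

open Pool.Agent.Run7.h123.LC in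
/-- (5) -/
theorem spaces {S : Set ℕ} (hS : S.Infinite) : AllBut 2 fun b => ∀ d : ℕ,
    ∀ W ∈ Spaces (K S (group b)) d,
      ∃ δ : ℝ, 0 < δ ∧ ∃ᶠ t in atTop, δ * root t ≤ ((outside W 1 t).ncard : ℝ) := by
  refine allBut (by norm_num) fun c hc hi => ?_
  by_contra hcon
  push Not at hcon
  obtain ⟨_, _, ⟨V, hV, rfl, rfl⟩, hV2⟩ := hcon 0
  obtain ⟨_, _, ⟨W, hW, rfl, rfl⟩, hW2⟩ := hcon 1
  have hi' : MInd ![c 0, c 1] := by
    have : ![c 0, c 1] = c := by
      funext i
      fin_cases i <;> rfl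
    rw [this]
    exact hi
  obtain ⟨t0, h⟩ := main
  obtain ⟨D, hD⟩ : ∃ D : ℕ, D = Module.finrank (K S (group (c 0))) V *
    Module.finrank (K S (group (c 1))) W + 1 := ⟨_, rfl⟩
  have hD0 : (0 : ℝ) < D := by
    rw [hD]
    positivity
  have hδ : (0 : ℝ) < 1 / (20000 * D) := by positivity
  obtain ⟨t, g1, g2, g3', g4, g3⟩ := ((hV2 _ hδ).and ((hW2 _ hδ).and
    ((tend.eventually_ge_atTop (D : ℝ)).and ((Filter.eventually_ge_atTop t0).and
      (tend_lg.eventually_ge_atTop (D : ℝ)))))).exists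
  have h3 := (h t g4 1 odd_one D (by omega) g3 S hS).1 (group (c 0)) (group (c 1))
    (rad_inf (hc 0) (hc 1) hi') V W hV hW (by omega)
  have h4 : outside ((V : Set ℝ) ∩ W) 1 t ⊆ outside (V : Set ℝ) 1 t ∪ outside (W : Set ℝ) 1 t := by
    rintro i ⟨a1, a2, a3, a4⟩
    by_cases hi : zeta i ∈ V
    · exact Or.inr ⟨a1, a2, a3, fun hW' => a4 ⟨hi, hW'⟩⟩
    · exact Or.inl ⟨a1, a2, a3, hi⟩
  have h5 : ((outside ((V : Set ℝ) ∩ W) 1 t).ncard : ℝ) ≤
      (outside (V : Set ℝ) 1 t).ncard + (outside (W : Set ℝ) 1 t).ncard := by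
    have := (Set.ncard_le_ncard h4 ((outside_finite _ _ _).union (outside_finite _ _ _))).trans
      (Set.ncard_union_le _ _)
    exact_mod_cast this
  have h6 : root t / (10000 * (D : ℝ)) =
      1 / (20000 * D) * root t + 1 / (20000 * D) * root t := by
    field_simp
    ring
  unfold Many number at h3
  rw [if_pos g3'] at h3
  linarith

open Pool.Agent.Run7.h123.LC in
/-- (4) -/
theorem dims_often {S : Set ℕ} (hS : S.Infinite) {r : ℕ} (hr : 2 ≤ r) : AllBut r fun b =>
    ∃ᶠ t in atTop, ((lg t - 1) / r) ^ (r - 1) ≤ (dim (K S (group b)) 1 t : ℝ) ^ r := by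
  refine allBut (by omega) fun c hc hi => ?_
  by_contra hall
  push Not at hall
  obtain ⟨t0, h⟩ := dims
  have h0 : ∀ i, ∀ᶠ t : ℕ in atTop,
      (dim (K S (group (c i))) 1 t : ℝ) ^ r < ((lg t - 1) / r) ^ (r - 1) := by
    intro i
    have := hall i
    simpa only [Filter.not_frequently, not_le] using this
  obtain ⟨t, g1, g2, g3⟩ := ((Filter.eventually_all.2 h0).and
    ((tend_lg.eventually_ge_atTop (1 : ℝ)).and (Filter.eventually_ge_atTop t0))).exists
  obtain ⟨-, h3, -⟩ := h t g3 1 odd_one S hS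
  exact absurd (h3 r hr (fun i => group (c i)) (gindep_rad hc hi)) (not_le.2
    (prod_lt hr (fun i => dim (K S (group (c i))) 1 t) g1))

/-- For all `t ≥ t₀` (`t₀` is absolute), all odd `s ≥ 1` and all infinite sets `S` of integers:

(1) Let `1 ≤ D ≤ log t / 125` and let `n(D, t)` be `√(t log log t / log t) / (10000 D)`, if
`D ≤ log log t / 10000`, and `e^(-31 D) √(t / log t)` otherwise. If `G, H` are groups of rational numbers
with `G ∩ H = 1` and `V, W` are vector spaces over `K S G` and `K S H` of dimensions `d, e` with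
`d e < D`, then at least `n(D, t)` of the numbers `ζ(i)`, `s < i ≤ t s` odd, are not in `V ∩ W`. If
`G_1, …, G_r` are independent groups (`r ≥ 2`) and the `V_i` are vector spaces over `K S G_i` of
dimensions `d_i` with `r^(r-1) ∏ d_i < D^(r-1)`, or with all `d_i < D` and `D ≤ r`, then this is true for
the intersection of the `V_i`. There are less than `D` multiplicatively independent `c_i ≥ 2` such that
`dim (K S b) s t ≥ D` for all `b ≥ 2` multiplicatively independent of them. Here `dim F s t` is the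
dimension over `F` of the space generated by the `ζ(i)`, `s < i ≤ t s` odd.

(2) `dim (K S G) s t * dim (K S H) s t ≥ log t / 125 - 1` if `G ∩ H = 1`, and
`∏ dim (K S G_i) s t ≥ ((log t / 125 - 1) / r)^(r-1)` if `G_1, …, G_r` are independent.

(3) There is `c ≥ 2` such that `dim (K S b) s t ≥ √(log t / 125 - 1)` for all `b ≥ 2`
multiplicatively independent of `c`, and for every `r ≥ 2` there are less than `r` multiplicatively
independent `c_i ≥ 2` such that `(dim (K S b) s t)^r ≥ ((log t / 125 - 1) / r)^(r-1)` for all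
`b ≥ 2` multiplicatively independent of them.

For every infinite set `S` of integers:

(4) For every `r ≥ 2` there are less than `r` multiplicatively independent `c_i ≥ 2` such that for all
`b ≥ 2` multiplicatively independent of them `(dim (K S b) 1 t)^r ≥ ((log t / 125 - 1) / r)^(r-1)` for
infinitely many `t`.

(5) There is `c ≥ 2` such that for all `b ≥ 2` multiplicatively independent of `c` and every vector
space `W` of finite dimension over `K S b`, the number of odd `i`, `1 < i ≤ t`, with `ζ(i) ∉ W` is for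
some `δ > 0` and infinitely many `t` at least `δ √(t log log t / log t)`. In particular the odd zeta
values generate a vector space of infinite dimension over `K S b`.

(6) The field `K S b` contains the rational numbers and all real numbers which have, in some base
`d ≥ 2` with `d ^ m = b ^ k`, `m ≥ 1`, at most `C m` different blocks of `m` digits, `m ∈ S`, for some
`C`. -/
theorem result :
    (∃ t0 : ℕ, ∀ t ≥ t0, ∀ s : ℕ, Odd s → ∀ S : Set ℕ, S.Infinite →
      (∀ D : ℕ, 1 ≤ D → (D : ℝ) ≤ lg t →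
        (∀ G H : Subgroup ℚˣ, G ⊓ H = ⊥ → ∀ d e : ℕ, d * e < D →
          ∀ V ∈ Spaces (K S G) d, ∀ W ∈ Spaces (K S H) e, Many D s t (V ∩ W)) ∧
        (∀ r : ℕ, 2 ≤ r → ∀ G : Fin r → Subgroup ℚˣ, IndependentGroups G → ∀ d : Fin r → ℕ,
          (r ^ (r - 1) * ∏ i, d i < D ^ (r - 1) ∨ D ≤ r ∧ ∀ i, d i < D) → ∀ V : Fin r → Set ℝ,
          (∀ i, V i ∈ Spaces (K S (G i)) (d i)) → Many D s t (⋂ i, V i)) ∧
        AllBut D fun b => D ≤ dim (K S (group b)) s t) ∧
      (∀ G H : Subgroup ℚˣ, G ⊓ H = ⊥ → lg t - 1 ≤ (dim (K S G) s t : ℝ) * dim (K S H) s t) ∧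
      (∀ r : ℕ, 2 ≤ r → ∀ G : Fin r → Subgroup ℚˣ, IndependentGroups G →
        ((lg t - 1) / r) ^ (r - 1) ≤ ∏ i, (dim (K S (G i)) s t : ℝ)) ∧
      AllBut 2 (fun b => lg t - 1 ≤ (dim (K S (group b)) s t : ℝ) ^ 2) ∧
      ∀ r : ℕ, 2 ≤ r → AllBut r fun b =>
        ((lg t - 1) / r) ^ (r - 1) ≤ (dim (K S (group b)) s t : ℝ) ^ r) ∧
    (∀ S : Set ℕ, S.Infinite → ∀ r : ℕ, 2 ≤ r → AllBut r fun b =>
      ∃ᶠ t in atTop, ((lg t - 1) / r) ^ (r - 1) ≤ (dim (K S (group b)) 1 t : ℝ) ^ r) ∧
    (∀ S : Set ℕ, S.Infinite → AllBut 2 fun b => ∀ d : ℕ, ∀ W ∈ Spaces (K S (group b)) d,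
      ∃ δ : ℝ, 0 < δ ∧ ∃ᶠ t in atTop, δ * root t ≤ ((outside W 1 t).ncard : ℝ)) ∧
    (∀ (S : Set ℕ) (b d m k : ℕ), 2 ≤ d → 1 ≤ m → d ^ m = b ^ k → ∀ x C : ℝ,
      (∀ m ∈ S, (blocks (digit d x) m : ℝ) ≤ C * m) → x ∈ K S (group b)) ∧
    (∀ (S : Set ℕ) (G : Subgroup ℚˣ) (x : ℚ), (x : ℝ) ∈ K S G) := by
  obtain ⟨t1, h1⟩ := main
  obtain ⟨t2, h2⟩ := dims
  obtain ⟨t3, h3⟩ := dims_bases
  refine ⟨⟨max t1 (max t2 t3), fun t ht s hs S hS => ?_⟩,
    fun S hS r hr => dims_often hS hr, fun S hS => spaces hS, fun S b d m k hd hm h x C hC => ?_,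
    fun S G x => SubfieldClass.ratCast_mem _ x⟩
  · have ht1 : t1 ≤ t := (le_max_left _ _).trans ht
    have ht2 : t2 ≤ t := (le_max_left _ _).trans ((le_max_right _ _).trans ht)
    have ht3 : t3 ≤ t := (le_max_right _ _).trans ((le_max_right _ _).trans ht)
    obtain ⟨g1, g2, g3⟩ := h2 t ht2 s hs S hS
    obtain ⟨g4, g5⟩ := h3 t ht3 s hs S hS
    refine ⟨fun D hD hDl => ?_, g1, g2, g4, g5⟩
    obtain ⟨k1, k2, k3⟩ := h1 t ht1 s hs D hD hDl S hS
    refine ⟨?_, ?_, g3 D hD hDl⟩
    · rintro G H hGH d e hde _ ⟨V, hV, rfl, rfl⟩ _ ⟨W, hW, rfl, rfl⟩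
      exact k1 G H hGH V W hV hW hde
    · intro r hr G hG d hd V hV
      choose W hW1 hW2 hW3 using hV
      rw [Set.iInter_congr fun i => hW3 i]
      rcases hd with hd | ⟨hr2, hd⟩
      · refine k2 r hr G hG W hW1 ?_
        rw [Finset.prod_congr rfl fun i _ => hW2 i]
        exact hd
      · refine k3 r hr2 G hG W hW1 fun i => ?_
        rw [hW2 i]
        exact hd i
  · have hb0 : (d : ℚ) ≠ 0 := by
      have : d ≠ 0 := by omega
      exact_mod_cast this
    have hu : ∃ u ∈ group b, (u : ℚ) = d := by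
      refine ⟨Units.mk0 (d : ℚ) hb0, mem_group.2 ⟨?_, m, (k : ℤ), hm, ?_⟩, rfl⟩
      · rw [Units.val_mk0]
        positivity
      · rw [Units.val_mk0, zpow_natCast]
        exact_mod_cast h
    exact Pool.Agent.Run7.h123.LC.digits_mem hd hu hC

end Pool.Agent.Results.MP_c2395a_nt.OddZetaOverSimpleFields
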