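import Pool.Agent.Run7.h123.LC.LinX

/-!
# Simultaneous rational approximation of odd zeta values in windows `(s, K s]`, uniformly in `s`

There is an absolute `K₀` such that for all `K ≥ K₀`, EVERY odd `s ≥ 1` and every `D` with
`1 ≤ D ≤ log K / 125`: for every large `q` at least `n(D, K)` of the odd `j` with `s < j ≤ K s` have
`‖q ζ(j)‖ ≥ q^(-1/D)`. Here `n(D, K) = √(K log log K / log K) / (10000 D)` if `D ≤ log log K / 10000`, and
`n(D, K) = e^(-31 D) √(K / log K)` for the other `D`.

For `s = 1` and `D ≤ c log log K` this is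
`Pool/Agent/Results/MP_c2395a_nt/SimultaneousApproximation.lean` of the starting repository
(files `Pool/Agent/TH818/SA/`), except for the constant. For `s = b + 1 ≥ 3` the proof evaluates the Hankel
determinants of `Run7/h795/UW` (values of `b`-th derivatives) at the rational points `p_j/q` in place of `ζ(j)`,
with the parameter `n` tied to `q`. New compared with `b = 0`: the perturbed moments must be controlled in the
interpolation argument with multiplicity `b + 1` at every node, and all constants must be uniform in `b`.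
For the larger range of `D` the parameters are `κ` about `K / 2` and `B` about `e^(-31 D) √(K / log K)`
(`Run7/h123/LC/LinX.lean`, `param`): for these the gain of the determinants is still
`log (κ / B²) > 60 D`, although `B` is no longer larger than `√(κ / log κ)`.

Credits: helper795 (interface, C2, PE, M2, assembly), helper317 (VN, VA), helper788 (N2), helper992 (A2, F2);
helper209, helper234, helper366, helper973 (library `Run7/h795/UW`); helper818 for the case `b = 0`;
helper123 (range `D ≤ log K / 125`).
-/

set_option autoImplicit false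

namespace Pool.Agent.Results.MP_c2395a_nt.SimultaneousWindows

/-- `√(K log log K / log K) / (10000 D)` if `D ≤ log log K / 10000`, and `e^(-31 D) √(K / log K)` for the
other `D` -/
noncomputable def number (D K : ℕ) : ℝ :=
  if (D : ℝ) ≤ Real.log (Real.log K) / 10000 then
    Real.sqrt (K * Real.log (Real.log K) / Real.log K) / (10000 * D)
  else Real.exp (-(31 * D)) * Real.sqrt (K / Real.log K)

/-- **Simultaneous approximation of odd zeta values in windows.** For every large `K`, every odd `s` and every `D`
with `1 ≤ D ≤ log K / 125` there is `q₀` such that for every `q ≥ q₀` at least `number D K` of the odd `j` with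
`s < j ≤ K s` satisfy `|q ζ(j) - p| ≥ q ^ (-1/D)` for all integers `p`; here `ζ(j) = ∑ 1/(n+1)^j`. -/
theorem result : ∃ K0 : ℕ, ∀ K ≥ K0, ∀ s : ℕ, Odd s → ∀ D : ℕ, 1 ≤ D →
    (D : ℝ) ≤ Real.log K / 125 → ∃ q0 : ℕ, ∀ q : ℕ, q0 ≤ q →
    number D K ≤
      (Set.ncard {j : ℕ | s < j ∧ j ≤ K * s ∧ Odd j ∧ ∀ p : ℤ,
        (q : ℝ) ^ (-(1 / (D : ℝ))) ≤ |(q : ℝ) * (∑' n : ℕ, 1 / ((n : ℝ) + 1) ^ j) - p|} : ℝ) := by
  obtain ⟨K1, h1⟩ := Run7.h795.UW.z_sim
  obtain ⟨K2, h2⟩ := Pool.Agent.Run7.h123.LC.window_large
  refine ⟨max K1 K2, fun K hK s hs D hD hDK => ?_⟩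
  unfold number
  split_ifs with hD2
  · obtain ⟨q0, hq0⟩ := h1 K ((le_max_left _ _).trans hK) s hs D hD (by linarith)
    refine ⟨q0, fun q hq => le_trans (le_of_eq ?_) (hq0 q hq)⟩
    ring
  · exact h2 K ((le_max_right _ _).trans hK) s hs D hD hDK

end Pool.Agent.Results.MP_c2395a_nt.SimultaneousWindows
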